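import Pool.Agent.DPL.StmtsB

namespace Pool.Agent.DPL.H38

open Finset Polynomial Pool.Agent.DPS Pool.Agent.DPL

theorem alt : ALTStmt := by
  intro u a ha
  have hrec : ∀ v : ℕ, ∑ i ∈ range (v + 1 + 1), (-1 : ℝ) ^ (v + 1 - i) * a i =
      a (v + 1) - ∑ i ∈ range (v + 1), (-1 : ℝ) ^ (v - i) * a i := by
    intro v
    rw [sum_range_succ]
    have h1 : ∑ i ∈ range (v + 1), (-1 : ℝ) ^ (v + 1 - i) * a i =
        - ∑ i ∈ range (v + 1), (-1 : ℝ) ^ (v - i) * a i := by
      rw [← sum_neg_distrib]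
      refine sum_congr rfl fun i hi => ?_
      have hi' : i ≤ v := Nat.lt_succ_iff.1 (mem_range.1 hi)
      rw [Nat.succ_sub hi', pow_succ]
      ring
    rw [h1, Nat.sub_self, pow_zero, one_mul]
    ring
  have key : ∀ v : ℕ, v ≤ u → (∀ i, i < u → a i ≤ a (i + 1)) →
      0 ≤ ∑ i ∈ range (v + 1), (-1 : ℝ) ^ (v - i) * a i ∧
        ∑ i ∈ range (v + 1), (-1 : ℝ) ^ (v - i) * a i ≤ a v := by
    intro v
    induction v with
    | zero =>
      intro _ _
      simpa using ha 0
    | succ v ih =>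
      intro hv hmon
      obtain ⟨h1, h2⟩ := ih (by omega) hmon
      rw [hrec v]
      have h3 := hmon v (by omega)
      constructor <;> linarith
  intro hmon
  exact key u le_rfl hmon

end Pool.Agent.DPL.H38
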